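import Mathlib
import Pool.Agent.TH278.DX.Near
import Pool.Agent.TH611.DX.Tee

/-!
# Unitarizable E-groups have no infinite exact quotients

An E-group for the prime `p` is an infinite periodic group which is residually a finite `p`-group,
all of whose finitely generated proper subgroups are finite or of finite index, and which has
Kazhdan's property (T). The theorem says:

1. if a group with property (T) is unitarizable, or if only, for one `c > 1`, its representations with
   `‖π(g)‖ ≤ c` are, then each of its quotients with property A is finite;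
2. hence an E-group with property A (an exact E-group) is never unitarizable; for each `c > 1` it has
   a non-unitarizable representation with `‖π(g)‖ ≤ c` for all `g`.

The proof uses the theorem that a unitarizable group with property A is amenable
(`Pool.Agent.Results.MP_d7f3a3_an.ExactGroups`), Day's theorem that an amenable group has almost
invariant unit vectors in `ℓ²`, and property (T).
-/

set_option autoImplicit false

noncomputable section

namespace Pool.Agent.Results.MP_ee37b4_al.ExactEGroups

section reps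

/-- homomorphisms of `G` into the group of invertible bounded operators on `H` -/
abbrev Rep (G H : Type) [Group G] [NormedAddCommGroup H] [InnerProductSpace ℂ H] : Type :=
  G →* (H →L[ℂ] H)ˣ

variable {H : Type} [NormedAddCommGroup H] [InnerProductSpace ℂ H]

/-- the operator of an invertible element -/
def val (S : (H →L[ℂ] H)ˣ) : H →L[ℂ] H := S

variable {G : Type} [Group G]

/-- `‖π(g)‖ ≤ c` for all `g`. -/
def BoundedBy (c : ℝ) (π : Rep G H) : Prop := ∀ g : G, ‖val (π g)‖ ≤ c

/-- all `σ(g)` are unitary -/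
def IsUnitary [CompleteSpace H] (σ : Rep G H) : Prop :=
  ∀ g : G, val (σ g) ∈ unitary (H →L[ℂ] H)

/-- Some bounded invertible `S` makes all `S π(g) S⁻¹` unitary. -/
def IsUnitarizable [CompleteSpace H] (π : Rep G H) : Prop :=
  ∃ S : (H →L[ℂ] H)ˣ, ∀ g : G, val (S * π g * S⁻¹) ∈ unitary (H →L[ℂ] H)

/-- `ξ` is nonzero and moved by at most `ε ‖ξ‖` by each `σ(s)`, `s ∈ S`. -/
def AlmostInvariant (σ : Rep G H) (S : Finset G) (ε : ℝ) (ξ : H) : Prop :=
  ξ ≠ 0 ∧ ∀ s ∈ S, ‖val (σ s) ξ - ξ‖ ≤ ε * ‖ξ‖

/-- `σ` has a nonzero invariant vector. -/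
def HasInvariantVector (σ : Rep G H) : Prop := ∃ η : H, η ≠ 0 ∧ ∀ g : G, val (σ g) η = η

end reps

/-- Every representation of `G` on a complex Hilbert space with `‖π(g)‖ ≤ c` for all `g` is
unitarizable. -/
def UnitarizableUpTo (G : Type) [Group G] (c : ℝ) : Prop :=
  ∀ (H : Type) [NormedAddCommGroup H] [InnerProductSpace ℂ H] [CompleteSpace H] (π : Rep G H),
    BoundedBy c π → IsUnitarizable π

/-- Every uniformly bounded representation of `G` on a complex Hilbert space is unitarizable. -/
def Unitarizable (G : Type) [Group G] : Prop :=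
  ∀ (H : Type) [NormedAddCommGroup H] [InnerProductSpace ℂ H] [CompleteSpace H] (π : Rep G H),
    (∃ c : ℝ, BoundedBy c π) → IsUnitarizable π

/-- Kazhdan's property (T): there are a finite `S ⊆ G` and `ε > 0` such that every unitary
representation of `G` with a nonzero `(S, ε)`-almost invariant vector has a nonzero invariant
vector. -/
def PropertyT (G : Type) [Group G] : Prop :=
  ∃ (S : Finset G) (ε : ℝ), 0 < ε ∧
    ∀ (H : Type) [NormedAddCommGroup H] [InnerProductSpace ℂ H] [CompleteSpace H] (σ : Rep G H),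
      IsUnitary σ → ∀ ξ : H, AlmostInvariant σ S ε ξ → HasInvariantVector σ

/-- Property A of Yu for the discrete group `G`: for every finite `E` and `ε > 0` there are a
finite `K` and unit vectors `ξ_v ∈ ℓ²(G)` (`v ∈ G`), `ξ_v` supported in `v K`, with
`⟨ξ_v, ξ_{v g}⟩ ≥ 1 - ε` for all `v ∈ G` and `g ∈ E`. -/
def PropertyA (G : Type) [Group G] : Prop :=
  ∀ (E : Finset G) (ε : ℝ), 0 < ε → ∃ (K : Finset G) (ξ : G → G → ℝ),
    (∀ v x, ξ v x ≠ 0 → v⁻¹ * x ∈ K) ∧
    (∀ v, ∑ k ∈ K, ξ v (v * k) ^ 2 = 1) ∧
    ∀ v, ∀ g ∈ E, 1 - ε ≤ ∑ k ∈ K, ξ v (v * k) * ξ (v * g) (v * k)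

/-- `G` is residually a finite `p`-group: each `g ≠ 1` avoids some normal subgroup whose index is a
power of `p`. -/
def ResiduallyFiniteP (p : ℕ) (G : Type) [Group G] : Prop :=
  ∀ g : G, g ≠ 1 → ∃ N : Subgroup G, N.Normal ∧ (∃ k : ℕ, N.index = p ^ k) ∧ g ∉ N

/-- `G` is an E-group for `p`: infinite, periodic, residually a finite `p`-group, every finitely
generated subgroup `H ≠ G` is finite or of finite index, and `G` has property (T). -/
def IsEGroup (p : ℕ) (G : Type) [Group G] : Prop :=
  Infinite G ∧ (∀ g : G, IsOfFinOrder g) ∧ ResiduallyFiniteP p G ∧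
  (∀ H : Subgroup G, H.FG → H ≠ ⊤ → (Finite H ∨ H.FiniteIndex)) ∧ PropertyT G

/-- If `G` has property (T) and, for one `c > 1`, its representations bounded by `c` are
unitarizable, then all quotients of `G` with property A are finite. -/
def ExactQuotientsFinite : Prop :=
  ∀ (G : Type) [Group G], PropertyT G → (∃ c : ℝ, 1 < c ∧ UnitarizableUpTo G c) →
    ∀ (Q : Type) [Group Q] (φ : G →* Q), Function.Surjective φ → PropertyA Q → Finite Q

/-- An E-group with property A is not unitarizable; moreover, for each `c > 1`, some representation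
bounded by `c` is not unitarizable. -/
def ExactEGroupsNotUnitarizable : Prop :=
  ∀ (p : ℕ) (G : Type) [Group G], p.Prime → IsEGroup p G → PropertyA G →
    (∀ c : ℝ, 1 < c → ¬ UnitarizableUpTo G c) ∧ ¬ Unitarizable G

theorem part1 : ExactQuotientsFinite := by
  intro G _ hT hU Q _ φ hφ hA
  obtain ⟨c, hc, hU⟩ := hU
  have hUQ : ∀ (H : Type) [NormedAddCommGroup H] [InnerProductSpace ℂ H] [CompleteSpace H]
      (π : Q →* (H →L[ℂ] H)ˣ), Pool.Agent.TH278.DX.Bdd π c →
      ∃ κ : ℝ, Pool.Agent.TH278.DX.Sim π κ := by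
    intro H _ _ _ π hπ
    obtain ⟨S, hS⟩ := hU H (π.comp φ) (fun g => hπ (φ g))
    refine ⟨_, S, le_rfl, fun q => ?_⟩
    obtain ⟨g, rfl⟩ := hφ q
    exact hS g
  have hQ : Pool.Agent.TH278.DX.Amenable Q :=
    Pool.Agent.TH278.DX.amenable_of_near hA c hc hUQ
  obtain ⟨S, ε, hε, hT⟩ := hT
  refine Pool.Agent.TH611.DX.Tee.finite_of_amenable ⟨S, ε, hε, ?_⟩ φ hφ hQ
  intro H _ _ _ σ hσ ξ hξ0 hξ
  exact hT H σ hσ ξ ⟨hξ0, hξ⟩

theorem part2 : ExactEGroupsNotUnitarizable := by
  intro p G _ _ hE hA
  obtain ⟨hinf, -, -, -, hT⟩ := hE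
  have key : ∀ c : ℝ, 1 < c → ¬ UnitarizableUpTo G c := by
    intro c hc hU
    have := part1 G hT ⟨c, hc, hU⟩ G (MonoidHom.id G) Function.surjective_id hA
    exact not_finite G
  exact ⟨key, fun hU => key 2 (by norm_num) fun H _ _ _ π hπ => hU H π ⟨2, hπ⟩⟩

/-- Unitarizable groups with property (T) have only finite quotients with property A; an E-group
with property A is not unitarizable. -/
theorem result : ExactQuotientsFinite ∧ ExactEGroupsNotUnitarizable := ⟨part1, part2⟩

end Pool.Agent.Results.MP_ee37b4_al.ExactEGroups
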